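import Pool.Agent.MP_f6d20c_nt.Rec
import Mathlib

-- part MP_f6d20c_nt.Fourier
section

/-! Parseval bounds for the iterated transforms and a fourth moment bound for a Kloosterman sum. -/

open Finset

namespace Pool.Agent.MP_f6d20c_nt

variable {F : Type} [Field F] [Fintype F] [CharP F 2] {χ : F → ℝ}

open Classical in
omit [CharP F 2] in
lemma sum_reindex (f : F → ℝ) :
    ∑ y ∈ univ.erase (0 : F), f (1 + y⁻¹) = ∑ x, f x - f 1 := by
  rw [← Finset.add_sum_erase univ f (Finset.mem_univ 1), add_sub_cancel_left]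
  have hinj : Function.Injective fun y : F => 1 + y⁻¹ := fun a b hab =>
    inv_injective (add_left_cancel hab)
  exact Finset.sum_bijective (fun y : F => 1 + y⁻¹) (Finite.injective_iff_bijective.1 hinj)
    (fun y => by simp) fun _ _ => rfl

lemma IsChi.T_zero (hχ : IsChi χ) (h : F → ℝ) : T χ h 0 = ∑ x, h x - h 1 := by
  unfold T
  simp only [zero_mul, hχ.zero, mul_one]
  exact sum_reindex h

lemma IsChi.sum_T (hχ : IsChi χ) (h : F → ℝ) : ∑ t, T χ h t = 0 := by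
  classical
  unfold T
  rw [Finset.sum_comm]
  refine Finset.sum_eq_zero fun y hy => ?_
  rw [← Finset.mul_sum, hχ.sum_univ, if_neg (Finset.mem_erase.1 hy).1, mul_zero]

open Classical in
/-- Parseval's identity. -/
lemma IsChi.parseval (hχ : IsChi χ) (s : Finset F) (f : F → ℝ) :
    ∑ t, (∑ y ∈ s, f y * χ (t * y)) ^ 2 = Fintype.card F * ∑ y ∈ s, f y ^ 2 := by
  simp_rw [pow_two, Finset.sum_mul_sum]
  rw [Finset.sum_comm, Finset.mul_sum]
  refine Finset.sum_congr rfl fun y hy => ?_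
  rw [Finset.sum_comm]
  have : ∀ z : F, ∑ t, f y * χ (t * y) * (f z * χ (t * z)) =
      if y = z then Fintype.card F * (f y * f z) else 0 := fun z => by
    have h1 : ∀ t, f y * χ (t * y) * (f z * χ (t * z)) = f y * f z * χ (t * (y + z)) := fun t => by
      rw [mul_add, hχ.add]; ring
    simp_rw [h1]
    rw [← Finset.mul_sum, hχ.sum_univ]
    have h2 : y + z = 0 ↔ y = z := by rw [add_eq_zero_iff_eq_neg, CharTwo.neg_eq]
    simp only [h2]
    split_ifs <;> ring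
  simp_rw [this]
  rw [Finset.sum_ite_eq, if_pos hy]

lemma IsChi.sum_T_sq (hχ : IsChi χ) (h : F → ℝ) :
    ∑ t, T χ h t ^ 2 ≤ Fintype.card F * ∑ x, h x ^ 2 := by
  unfold T
  rw [hχ.parseval, sum_reindex fun x => h x ^ 2]
  have : (0 : ℝ) ≤ Fintype.card F := Nat.cast_nonneg _
  nlinarith [sq_nonneg (h 1)]

/-- The iterated transforms of the indicator of zero. -/
noncomputable def H (χ : F → ℝ) : ℕ → F → ℝ
  | 0 => del
  | m + 1 => T χ (H χ m)

lemma IsChi.H_one (hχ : IsChi χ) (t : F) : H χ 1 t = χ t := by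
  classical
  have := hχ.one
  change T χ del t = χ t
  unfold T
  rw [Finset.sum_eq_single (1 : F)]
  · simp [del, CharTwo.add_self_eq_zero]
  · intro y _ hy
    have : (1 : F) + y⁻¹ ≠ 0 := by
      rw [Ne, add_eq_zero_iff_eq_neg, CharTwo.neg_eq, eq_comm, inv_eq_one]
      exact hy
    simp [del, this]
  · simp

lemma IsChi.sum_H_sq (hχ : IsChi χ) (m : ℕ) :
    ∑ x, H χ m x ^ 2 ≤ (Fintype.card F : ℝ) ^ m := by
  classical
  induction m with
  | zero => simp [H, del]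
  | succ m ih =>
    refine (hχ.sum_T_sq (H χ m)).trans ?_
    rw [pow_succ, mul_comm]
    exact mul_le_mul_of_nonneg_right ih (Nat.cast_nonneg _)

lemma IsChi.alpha_sq (hχ : IsChi χ) (m : ℕ) : H χ m 1 ^ 2 ≤ (Fintype.card F : ℝ) ^ m :=
  (Finset.single_le_sum (f := fun x => H χ m x ^ 2) (fun _ _ => sq_nonneg _)
    (Finset.mem_univ 1)).trans (hχ.sum_H_sq m)

lemma IsChi.rec_Z (hχ : IsChi χ) (i : ℕ) :
    2 ^ i * ((2 ^ (i + 1) - 1) * Z F (i + 1)) = G F i - 2 ^ i * Z F i + B i (H χ 1) := by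
  have h := hχ.step i del
  have h0 : T χ del 0 = 1 := by
    have := hχ.H_one 0
    rw [hχ.zero] at this
    exact this
  have h1 : del (1 : F) = 0 := by simp [del]
  rw [B_del, h0, h1] at h
  rw [h]
  change _ = _ + B i (T χ del)
  ring

lemma IsChi.rec_B (hχ : IsChi χ) (i m : ℕ) :
    2 ^ i * B (i + 1) (H χ (m + 1)) =
      B i (H χ (m + 2)) + H χ (m + 1) 1 * (Fintype.card F * Z F i - G F i) := by
  have h := hχ.step i (H χ (m + 1))
  have h0 : T χ (H χ (m + 1)) 0 = -H χ (m + 1) 1 := by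
    rw [hχ.T_zero]
    have : ∑ x, H χ (m + 1) x = 0 := hχ.sum_T _
    rw [this, zero_sub]
  rw [h0] at h
  rw [h]
  change _ = B i (T χ (H χ (m + 1))) + _
  ring

omit [Fintype F] in
lemma IsChi.fibre (hχ : IsChi χ) (x y : F) :
    x⁻¹ + (x + 1)⁻¹ = y⁻¹ + (y + 1)⁻¹ ↔ x = y ∨ x = y + 1 := by
  classical
  have hne : ∀ z : F, phi 1 z ≠ 1 := fun z hz => by
    have := hχ.chi_phi one_ne_zero z
    rw [hz, inv_one, one_pow, mul_one, hχ.one] at this
    norm_num at this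
  rw [inv_add_inv 1 one_ne_zero, inv_add_inv 1 one_ne_zero, ← phi_eq_iff]
  constructor
  · intro h
    by_cases hx : phi 1 x = 0 <;> by_cases hy : phi 1 y = 0
    · rw [hx, hy]
    · simp only [hx, hy, if_true, if_false, inv_zero, mul_zero, zero_add, add_zero, one_mul,
        inv_one] at h
      exact absurd (inv_eq_one.1 h.symm) (hne y)
    · simp only [hx, hy, if_true, if_false, inv_zero, mul_zero, zero_add, add_zero, one_mul,
        inv_one] at h
      exact absurd (inv_eq_one.1 h) (hne x)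
    · simp only [hx, hy, if_false, add_zero, one_mul] at h
      exact inv_injective h
  · intro h; rw [h]

/-- The fourth moment bound for the Kloosterman sum. -/
lemma IsChi.kloosterman (hχ : IsChi χ) :
    ((1 - H χ 2 1) ^ 2 - Fintype.card F) ^ 2 ≤ (Fintype.card F : ℝ) ^ 3 := by
  classical
  set q : ℝ := (Fintype.card F : ℝ) with hq
  set c : F → ℝ := fun z => ∑ x : F, χ (z * (x⁻¹ + (x + 1)⁻¹)) with hc
  have hK : 1 - H χ 2 1 = ∑ y : F, χ (y⁻¹ + y) := by
    change 1 - T χ (H χ 1) 1 = _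
    unfold T
    rw [← Finset.add_sum_erase univ _ (Finset.mem_univ (0 : F)), inv_zero, add_zero, hχ.zero,
      sub_eq_add_neg, ← Finset.sum_neg_distrib]
    congr 1
    refine Finset.sum_congr rfl fun y _ => ?_
    rw [hχ.H_one, hχ.add, hχ.add, hχ.one, one_mul]; ring
  have hc0 : c 0 = q := by simp [hc, hχ.zero, hq]
  have hsq : (1 - H χ 2 1) ^ 2 - q = ∑ z ∈ univ.erase (0 : F), c z⁻¹ * χ z := by
    have h1 : (1 - H χ 2 1) ^ 2 = ∑ z : F, c z⁻¹ * χ z := by
      rw [hK, pow_two, Finset.sum_mul_sum]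
      have h2 : ∀ y : F, ∑ y' : F, χ (y⁻¹ + y) * χ (y'⁻¹ + y') =
          ∑ z : F, χ (y⁻¹ + (y + z)⁻¹) * χ z := fun y => by
        symm
        refine Fintype.sum_equiv (Equiv.addLeft y) _ _ fun z => ?_
        simp only [Equiv.coe_addLeft]
        rw [← hχ.add, ← hχ.add]
        congr 1
        have h2 : (2 : F) = 0 := CharTwo.two_eq_zero
        linear_combination (-y) * h2
      simp_rw [h2]
      rw [Finset.sum_comm]
      refine Finset.sum_congr rfl fun z _ => ?_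
      rw [← Finset.sum_mul]
      congr 1
      by_cases hz : z = 0
      · subst hz
        simp [hc, CharTwo.add_self_eq_zero]
      · symm
        refine Fintype.sum_equiv (Equiv.mulLeft₀ z hz) _ _ fun x => ?_
        simp only [Equiv.mulLeft₀_apply]
        congr 1
        rw [show z * x + z = z * (x + 1) by ring, mul_inv, mul_inv]; ring
    rw [h1, ← Finset.add_sum_erase univ _ (Finset.mem_univ (0 : F)), inv_zero, hc0, hχ.zero]
    ring
  have hc2 : ∑ z, c z ^ 2 = 2 * q ^ 2 := by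
    simp_rw [hc, pow_two, Finset.sum_mul_sum]
    rw [Finset.sum_comm]
    have h1 : ∀ x : F, ∑ z : F, ∑ y : F, χ (z * (x⁻¹ + (x + 1)⁻¹)) * χ (z * (y⁻¹ + (y + 1)⁻¹)) =
        2 * q := fun x => by
      rw [Finset.sum_comm]
      have h2 : ∀ y : F, ∑ z : F, χ (z * (x⁻¹ + (x + 1)⁻¹)) * χ (z * (y⁻¹ + (y + 1)⁻¹)) =
          if y ∈ ({x, x + 1} : Finset F) then q else 0 := fun y => by
        simp_rw [← hχ.add, ← mul_add]
        rw [hχ.sum_univ]
        have h3 : x⁻¹ + (x + 1)⁻¹ + (y⁻¹ + (y + 1)⁻¹) = 0 ↔ y ∈ ({x, x + 1} : Finset F) := by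
          rw [add_eq_zero_iff_eq_neg, CharTwo.neg_eq, eq_comm, hχ.fibre]
          simp
        simp only [h3, hq]
      simp_rw [h2]
      rw [Finset.sum_ite_mem, Finset.univ_inter, Finset.sum_pair (by simp)]
      ring
    simp_rw [h1]
    rw [Finset.sum_const, Finset.card_univ, nsmul_eq_mul, ← hq]
    ring
  have hc3 : ∑ z ∈ univ.erase (0 : F), c z⁻¹ ^ 2 = q ^ 2 := by
    have h1 : ∑ z ∈ univ.erase (0 : F), c z⁻¹ ^ 2 = ∑ z ∈ univ.erase (0 : F), c z ^ 2 :=
      Finset.sum_bijective (fun y : F => y⁻¹) inv_involutive.bijective (fun y => by simp)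
        fun _ _ => rfl
    rw [h1]
    rw [← Finset.add_sum_erase univ _ (Finset.mem_univ (0 : F)), hc0] at hc2
    linarith
  have hc4 : ∑ z ∈ univ.erase (0 : F), χ z ^ 2 ≤ q := by
    simp_rw [pow_two, hχ.mul_self]
    rw [Finset.sum_const, nsmul_eq_mul, mul_one, hq, ← Finset.card_univ]
    exact_mod_cast Finset.card_erase_le
  rw [hsq]
  refine (Finset.sum_mul_sq_le_sq_mul_sq _ _ _).trans ?_
  rw [hc3, pow_succ q 2]
  exact mul_le_mul_of_nonneg_left hc4 (sq_nonneg _)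

end Pool.Agent.MP_f6d20c_nt

end

-- part MP_f6d20c_nt.Analysis
section

/-! The real-variable analysis of the recursion. -/

namespace Pool.Agent.MP_f6d20c_nt

/-- The data of the recursion. -/
structure RecData (q r : ℝ) (G Z α : ℕ → ℝ) (B : ℕ → ℕ → ℝ) : Prop where
  r_pos : 0 < r
  r_sq : r ^ 2 = q
  G0 : G 0 = 1
  Z0 : Z 0 = 1
  B0 : ∀ m, B 0 m = 0
  Znn : ∀ i, 0 ≤ Z i
  recG : ∀ i, 2 ^ i * ((2 ^ (i + 1) - 1) * G (i + 1)) = (q - 2 ^ i) * G i
  recZ : ∀ i, 2 ^ i * ((2 ^ (i + 1) - 1) * Z (i + 1)) = G i - 2 ^ i * Z i + B i 1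
  recB : ∀ i m, 2 ^ i * B (i + 1) (m + 1) = B i (m + 2) + α (m + 1) * (q * Z i - G i)
  α1 : α 1 = -1
  αle : ∀ m, |α m| ≤ r ^ m
  kl : ((1 - α 2) ^ 2 - q) ^ 2 ≤ q ^ 3

namespace RecData

variable {q r : ℝ} {G Z α : ℕ → ℝ} {B : ℕ → ℕ → ℝ}

lemma G1 (h : RecData q r G Z α B) : G 1 = q - 1 := by
  have := h.recG 0
  rw [h.G0] at this
  norm_num at this
  linarith

lemma Z1 (h : RecData q r G Z α B) : Z 1 = 0 := by
  have := h.recZ 0
  rw [h.G0, h.Z0, h.B0] at this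
  norm_num at this
  linarith

lemma B1 (h : RecData q r G Z α B) (m : ℕ) : B 1 (m + 1) = α (m + 1) * (q - 1) := by
  have := h.recB 0 m
  rw [h.G0, h.Z0, h.B0] at this
  norm_num at this
  linarith

lemma G2 (h : RecData q r G Z α B) : G 2 = (q - 1) * (q - 2) / 6 := by
  have := h.recG 1
  rw [h.G1] at this
  norm_num at this
  linarith

lemma Z2 (h : RecData q r G Z α B) : Z 2 = 0 := by
  have := h.recZ 1
  rw [h.G1, h.Z1, h.B1 0, zero_add, h.α1] at this
  norm_num at this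
  linarith

lemma B2 (h : RecData q r G Z α B) (m : ℕ) :
    B 2 (m + 1) = (q - 1) * (α (m + 2) - α (m + 1)) / 2 := by
  have := h.recB 1 m
  rw [h.G1, h.Z1, h.B1 (m + 1)] at this
  norm_num at this
  linarith

lemma G3 (h : RecData q r G Z α B) : G 3 = (q - 1) * (q - 2) * (q - 4) / 168 := by
  have := h.recG 2
  rw [h.G2] at this
  norm_num at this
  linarith

lemma Z3 (h : RecData q r G Z α B) : Z 3 = (q - 1) * (q + 1 + 3 * α 2) / 168 := by
  have := h.recZ 2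
  rw [h.G2, h.Z2, h.B2 0, zero_add, zero_add, h.α1] at this
  norm_num at this
  linarith

lemma B31 (h : RecData q r G Z α B) :
    B 3 1 = (q - 1) * (21 * (α 3 - α 2) + 7 * (q - 2)) / 168 := by
  have := h.recB 2 0
  rw [h.G2, h.Z2, h.B2 1, zero_add, h.α1] at this
  norm_num at this
  linarith

lemma r_ge (h : RecData q r G Z α B) {c : ℝ} (hq : c ^ 2 ≤ q) : c ≤ r := by
  rw [← h.r_sq] at hq
  exact (le_abs_self c).trans ((sq_le_sq.1 hq).trans_eq (abs_of_nonneg h.r_pos.le))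

lemma α2 (h : RecData q r G Z α B) (hq : 128 ≤ q) : |1 - α 2| < (q + 4) / 3 := by
  have hr : (11 : ℝ) ≤ r := h.r_ge (by linarith)
  have h1 : (1 - α 2) ^ 2 - q ≤ q * r := by
    have : ((1 - α 2) ^ 2 - q) ^ 2 ≤ (q * r) ^ 2 := by
      rw [mul_pow, h.r_sq]; exact h.kl.trans_eq (by ring)
    exact (le_abs_self _).trans ((sq_le_sq.1 this).trans_eq
      (abs_of_nonneg (mul_nonneg (by linarith) (by linarith))))
  have h2 : 11 * (q * r) ≤ q ^ 2 := by
    rw [show q ^ 2 = (q * r) * r by rw [mul_assoc, ← sq, h.r_sq, sq]]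
    nlinarith [mul_nonneg (show 0 ≤ q by linarith) (show 0 ≤ r by linarith)]
  have h3 : 11 * q ≤ q * r := by nlinarith
  refine abs_lt_of_sq_lt_sq ?_ (by linarith)
  nlinarith

lemma Z3_pos (h : RecData q r G Z α B) (hq : 128 ≤ q) : 0 < Z 3 := by
  have := abs_lt.1 (h.α2 hq)
  rw [h.Z3]
  exact div_pos (mul_pos (by linarith) (by linarith)) (by norm_num)

lemma Z3_le (h : RecData q r G Z α B) (hq : 128 ≤ q) : q * Z 3 ≤ 3 * G 3 := by
  have := abs_lt.1 (h.α2 hq)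
  rw [h.Z3, h.G3]
  have h1 : q * (q + 1 + 3 * α 2) ≤ 3 * ((q - 2) * (q - 4)) := by nlinarith
  have h2 := mul_le_mul_of_nonneg_left h1 (show 0 ≤ q - 1 by linarith)
  linarith

lemma α3 (h : RecData q r G Z α B) (hq : 512 ≤ q) : 226 * |α 3| ≤ 10 * q ^ 2 := by
  have hr : (22.6 : ℝ) ≤ r := h.r_ge (by linarith)
  have h1 := h.αle 3
  have h2 : q ^ 2 = r ^ 3 * r := by rw [← h.r_sq]; ring
  have h3 : 0 ≤ r ^ 3 := by positivity
  nlinarith

lemma Z4_pos (h : RecData q r G Z α B) (hq : 512 ≤ q) : 0 < Z 4 := by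
  have h2 := abs_lt.1 (h.α2 (by linarith))
  have h3 := h.α3 hq
  have h4 := neg_abs_le (α 3)
  have := h.recZ 3
  rw [h.G3, h.Z3, h.B31] at this
  norm_num at this
  have h5 : 0 < q ^ 2 - 7 * q - 14 - 45 * α 2 + 21 * α 3 := by nlinarith
  have h6 := mul_pos (show 0 < q - 1 by linarith) h5
  nlinarith

lemma B31_le (h : RecData q r G Z α B) (hq : 512 ≤ q) : B 3 1 ≤ G 3 := by
  have h2 := abs_lt.1 (h.α2 (by linarith))
  have h3 := h.α3 hq
  have h4 := le_abs_self (α 3)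
  rw [h.G3, h.B31]
  have h5 : 21 * (α 3 - α 2) + 7 * (q - 2) ≤ (q - 2) * (q - 4) := by nlinarith
  have h6 := mul_le_mul_of_nonneg_left h5 (show 0 ≤ q - 1 by linarith)
  linarith

lemma G_pos (h : RecData q r G Z α B) {i : ℕ} (hG : 0 < G i) (hq : 2 ^ i < q) : 0 < G (i + 1) := by
  have h1 := h.recG i
  have ht : (1 : ℝ) ≤ 2 ^ i := one_le_pow₀ (by norm_num)
  have h2 : 0 < (q - 2 ^ i) * G i := mul_pos (by linarith) hG
  rw [← h1, pow_succ] at h2
  exact pos_of_mul_pos_left (a := G (i + 1)) (b := 2 ^ i * (2 ^ i * 2 - 1))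
    (by nlinarith) (by nlinarith)

lemma absD (h : RecData q r G Z α B) {i : ℕ} (hG : 0 < G i) (hZ : q * Z i ≤ 3 * G i) :
    |q * Z i - G i| ≤ 2 * G i := by
  have hq : 0 ≤ q := by rw [← h.r_sq]; positivity
  have := mul_nonneg hq (h.Znn i)
  rw [abs_le]; constructor <;> linarith

lemma B_step (h : RecData q r G Z α B) {i : ℕ} (hG : 0 < G i) (hZ : q * Z i ≤ 3 * G i)
    (hB : ∀ m, |B i (m + 1)| ≤ 8 * r ^ m * G i) (m : ℕ) :
    2 ^ i * |B (i + 1) (m + 1)| ≤ 10 * r ^ (m + 1) * G i := by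
  have h1 := h.recB i m
  have ht : (0 : ℝ) < 2 ^ i := by positivity
  have h2 : 2 ^ i * |B (i + 1) (m + 1)| = |2 ^ i * B (i + 1) (m + 1)| := by
    rw [abs_mul, abs_of_pos ht]
  rw [h2, h1]
  refine (abs_add_le _ _).trans ?_
  rw [abs_mul]
  have h3 := mul_le_mul (h.αle (m + 1)) (h.absD hG hZ) (abs_nonneg _) (pow_pos h.r_pos _).le
  have h4 := hB (m + 1)
  linarith

lemma B_next (h : RecData q r G Z α B) (hq : 512 ≤ q) {i : ℕ} (hG : 0 < G i)
    (hZ : q * Z i ≤ 3 * G i) (hB : ∀ m, |B i (m + 1)| ≤ 8 * r ^ m * G i)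
    (hi : 2 * (2 ^ (i + 1)) ^ 2 ≤ q) (m : ℕ) :
    |B (i + 1) (m + 1)| ≤ 8 * r ^ m * G (i + 1) := by
  have h1 := h.B_step hG hZ hB m
  have h2 := h.recG i
  rw [pow_succ (2 : ℝ) i] at hi h2
  set t : ℝ := 2 ^ i
  have ht : (1 : ℝ) ≤ t := one_le_pow₀ (by norm_num)
  have hr : (22 : ℝ) ≤ r := h.r_ge (by linarith)
  have htr : 2.8 * t ≤ r := h.r_ge (by nlinarith)
  have hq' := h.r_sq
  have hrm : 0 < r ^ m := pow_pos h.r_pos m
  have h3 : 10 * r * (t * 2 - 1) ≤ 8 * (q - t) := by nlinarith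
  have h4 : 0 < t * (t * 2 - 1) := by nlinarith
  refine le_of_mul_le_mul_left ?_ h4
  calc t * (t * 2 - 1) * |B (i + 1) (m + 1)| = (t * 2 - 1) * (t * |B (i + 1) (m + 1)|) := by ring
    _ ≤ (t * 2 - 1) * (10 * r ^ (m + 1) * G i) := mul_le_mul_of_nonneg_left h1 (by linarith)
    _ = (10 * r * (t * 2 - 1)) * (r ^ m * G i) := by ring
    _ ≤ (8 * (q - t)) * (r ^ m * G i) := mul_le_mul_of_nonneg_right h3 (by positivity)
    _ = 8 * r ^ m * ((q - t) * G i) := by ring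
    _ = t * (t * 2 - 1) * (8 * r ^ m * G (i + 1)) := by rw [← h2]; ring

lemma Z_le (h : RecData q r G Z α B) {i : ℕ} (hG : 0 < G i) (hB : B i 1 ≤ G i)
    (hi : 2 * (2 ^ (i + 1)) ^ 2 ≤ q) : q * Z (i + 1) ≤ 3 * G (i + 1) := by
  have h1 := h.recZ i
  have h2 := h.recG i
  rw [pow_succ (2 : ℝ) i] at hi h1 h2
  set t : ℝ := 2 ^ i
  have ht : (1 : ℝ) ≤ t := one_le_pow₀ (by norm_num)
  have h4 : 0 < t * (t * 2 - 1) := by nlinarith
  have hq : 3 * t ≤ q := by nlinarith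
  have h5 := mul_nonneg (show 0 ≤ t by linarith) (h.Znn i)
  refine le_of_mul_le_mul_left ?_ h4
  calc t * (t * 2 - 1) * (q * Z (i + 1)) = q * (t * ((t * 2 - 1) * Z (i + 1))) := by ring
    _ ≤ q * (2 * G i) := mul_le_mul_of_nonneg_left (by linarith) (by linarith)
    _ ≤ 3 * ((q - t) * G i) := by nlinarith
    _ = t * (t * 2 - 1) * (3 * G (i + 1)) := by rw [← h2]; ring

lemma Z_pos (h : RecData q r G Z α B) (hq : 512 ≤ q) {i : ℕ} (hG : 0 < G i)
    (hZ : q * Z i ≤ 3 * G i) (hB : |B i 1| ≤ 3 / 4 * G i)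
    (hi : 2 * (2 ^ (i + 1)) ^ 2 ≤ q) : 0 < Z (i + 1) := by
  have h1 := h.recZ i
  rw [pow_succ (2 : ℝ) i] at hi h1
  set t : ℝ := 2 ^ i
  have ht : (1 : ℝ) ≤ t := one_le_pow₀ (by norm_num)
  have h4 : 0 < t * (t * 2 - 1) := by nlinarith
  have hq' : 24 * t ≤ q := by nlinarith
  have h5 : t * Z i ≤ G i / 8 := by
    have := mul_le_mul_of_nonneg_right hq' (h.Znn i)
    nlinarith
  have h6 := neg_abs_le (B i 1)
  have h7 : 0 < t * (t * 2 - 1) * Z (i + 1) := by rw [mul_assoc, h1]; linarith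
  exact pos_of_mul_pos_left (a := Z (i + 1)) (b := t * (t * 2 - 1))
    (by linarith) h4.le

lemma B_two (h : RecData q r G Z α B) (hq : 512 ≤ q) {i : ℕ} (hG : 0 < G i)
    (hZ : q * Z i ≤ 3 * G i) (hB : ∀ m, |B i (m + 1)| ≤ 8 * r ^ m * G i)
    (hG' : 0 < G (i + 1)) (hZ' : q * Z (i + 1) ≤ 3 * G (i + 1)) (hG'' : 0 < G (i + 2))
    (hi : 2 * (2 ^ (i + 3)) ^ 2 ≤ q) : |B (i + 2) 1| ≤ 3 / 4 * G (i + 2) := by
  have h1 := h.B_step hG hZ hB 1
  have h2 := h.recG i
  have h3 := h.recG (i + 1)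
  have h4 := h.recB (i + 1) 0
  have h5 := h.absD hG' hZ'
  rw [zero_add, h.α1] at h4
  rw [show r ^ (1 + 1) = q from h.r_sq] at h1
  simp only [pow_succ (2 : ℝ)] at hi h2 h3 h4
  set t : ℝ := 2 ^ i
  have ht : (1 : ℝ) ≤ t := one_le_pow₀ (by norm_num)
  have hqt : 128 * t ^ 2 ≤ q := by nlinarith
  have hqt' : 128 * t ≤ q := by nlinarith
  -- first step
  have h6 : |B (i + 1) 2| ≤ 21 * t * G (i + 1) := by
    have h7 : q * G i ≤ 2.1 * t ^ 2 * G (i + 1) := by
      have h8 : (q - t) * G i ≤ 2 * t ^ 2 * G (i + 1) := by rw [← h2]; nlinarith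
      have h9 : q * G i ≤ 1.05 * ((q - t) * G i) := by nlinarith
      nlinarith
    refine le_of_mul_le_mul_left ?_ (show 0 < t by linarith)
    nlinarith
  have h7 : t * 2 * |B (i + 2) 1| ≤ (21 * t + 2) * G (i + 1) := by
    have : t * 2 * |B (i + 2) 1| = |t * 2 * B (i + 1 + 1) 1| := by
      rw [abs_mul, abs_of_pos (show 0 < t * 2 by linarith)]
    rw [this, h4]
    refine (abs_add_le _ _).trans ?_
    rw [neg_one_mul, abs_neg]
    linarith
  have h8 : (q - t * 2) * G (i + 1) ≤ 8 * t ^ 2 * G (i + 2) := by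
    rw [← h3]; nlinarith
  have h9 : (21 * t + 2) * (16 * t) ≤ 3 * (q - t * 2) := by nlinarith
  have h10 : 0 < q - t * 2 := by linarith
  refine le_of_mul_le_mul_left ?_ (show 0 < t * 2 * (q - t * 2) by positivity)
  calc t * 2 * (q - t * 2) * |B (i + 2) 1| = (q - t * 2) * (t * 2 * |B (i + 2) 1|) := by ring
    _ ≤ (q - t * 2) * ((21 * t + 2) * G (i + 1)) := mul_le_mul_of_nonneg_left h7 h10.le
    _ = (21 * t + 2) * ((q - t * 2) * G (i + 1)) := by ring
    _ ≤ (21 * t + 2) * (8 * t ^ 2 * G (i + 2)) := mul_le_mul_of_nonneg_left h8 (by linarith)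
    _ = ((21 * t + 2) * (16 * t)) * (t / 2 * G (i + 2)) := by ring
    _ ≤ (3 * (q - t * 2)) * (t / 2 * G (i + 2)) := mul_le_mul_of_nonneg_right h9 (by positivity)
    _ = t * 2 * (q - t * 2) * (3 / 4 * G (i + 2)) := by ring

lemma mono {i j : ℕ} (hij : i ≤ j) (hj : 2 * ((2 : ℝ) ^ j) ^ 2 ≤ q) : 2 * ((2 : ℝ) ^ i) ^ 2 ≤ q := by
  have : (2 : ℝ) ^ i ≤ 2 ^ j := pow_le_pow_right₀ (by norm_num) hij
  have h0 : (0 : ℝ) < 2 ^ i := by positivity
  nlinarith

lemma lt_q {i : ℕ} (hi : 2 * ((2 : ℝ) ^ (i + 1)) ^ 2 ≤ q) : 2 ^ i < q := by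
  have ht : (1 : ℝ) ≤ 2 ^ i := one_le_pow₀ (by norm_num)
  rw [pow_succ (2 : ℝ) i] at hi
  nlinarith

lemma inv (h : RecData q r G Z α B) (hq : 512 ≤ q) (j : ℕ) :
    2 * ((2 : ℝ) ^ (j + 2)) ^ 2 ≤ q →
      0 < G (j + 2) ∧ (∀ m, |B (j + 2) (m + 1)| ≤ 8 * r ^ m * G (j + 2)) ∧
        q * Z (j + 2) ≤ 3 * G (j + 2) ∧ (1 ≤ j → 0 < Z (j + 2)) := by
  induction j using Nat.strong_induction_on with
  | _ j ih =>
  intro hj
  rcases j with _ | j
  · have hG : 0 < G 2 := by rw [h.G2]; nlinarith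
    refine ⟨hG, fun m => ?_, by rw [zero_add, h.Z2]; linarith, fun h => absurd h (by norm_num)⟩
    rw [zero_add, h.B2, h.G2]
    have h1 := abs_le.1 (h.αle (m + 2))
    have h2 := abs_le.1 (h.αle (m + 1))
    have hr : (22 : ℝ) ≤ r := h.r_ge (by linarith)
    have hrm : 0 < r ^ m := pow_pos h.r_pos m
    have h3 : r ^ (m + 2) + r ^ (m + 1) ≤ 8 / 3 * r ^ m * (q - 2) := by
      rw [pow_add, pow_add, h.r_sq, pow_one]
      have := h.r_sq
      have : q + r ≤ 8 / 3 * (q - 2) := by nlinarith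
      nlinarith
    have h4 : |α (m + 2) - α (m + 1)| ≤ 8 / 3 * r ^ m * (q - 2) := by
      rw [abs_le]; constructor <;> linarith
    rw [abs_div, abs_mul, abs_of_pos (show 0 < q - 1 by linarith), abs_two]
    have := mul_le_mul_of_nonneg_left h4 (show 0 ≤ q - 1 by linarith)
    linarith
  obtain ⟨hG, hB, hZ, -⟩ := ih j (by omega) (mono (by omega) hj)
  have hG' : 0 < G (j + 2 + 1) := h.G_pos hG (lt_q hj)
  refine ⟨hG', h.B_next hq hG hZ hB hj, ?_⟩
  rcases j with _ | j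
  · exact ⟨h.Z3_le (by linarith), fun _ => h.Z3_pos (by linarith)⟩
  rcases j with _ | j
  · exact ⟨h.Z_le hG (h.B31_le hq) hj, fun _ => h.Z4_pos hq⟩
  obtain ⟨hG0, hB0, hZ0, -⟩ := ih j (by omega) (mono (by omega) hj)
  obtain ⟨hG1, -, hZ1, -⟩ := ih (j + 1) (by omega) (mono (by omega) hj)
  have key := h.B_two hq hG0 hZ0 hB0 hG1 hZ1 hG hj
  refine ⟨h.Z_le hG ((le_abs_self _).trans (key.trans ?_)) hj, fun _ => h.Z_pos hq hG hZ key hj⟩
  have : 0 < G (j + 2 + 2) := hG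
  linarith

theorem main (h : RecData q r G Z α B) {k : ℕ} (hk : 3 ≤ k) (hq : 2 * ((2 : ℝ) ^ k) ^ 2 ≤ q) :
    0 < Z k := by
  rcases hk.eq_or_lt with rfl | hk
  · exact h.Z3_pos (by norm_num at hq; exact hq)
  · obtain ⟨j, rfl⟩ : ∃ j, k = j + 2 := ⟨k - 2, by omega⟩
    have := mono (show 4 ≤ j + 2 by omega) hq
    exact (h.inv (by norm_num at this; exact this) j hq).2.2.2 (by omega)

end RecData

end Pool.Agent.MP_f6d20c_nt

end

-- part MP_f6d20c_nt.Main
section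

/-! Existence and non-existence of subspaces whose sum of inverses vanishes. -/

open Finset

namespace Pool.Agent.MP_f6d20c_nt

variable {F : Type} [Field F] [Fintype F] [CharP F 2] {χ : F → ℝ}

lemma IsChi.recData (hχ : IsChi χ) :
    RecData (Fintype.card F : ℝ) (Real.sqrt (Fintype.card F)) (G F) (Z F) (fun m => H χ m 1)
      (fun i m => B i (H χ m)) where
  r_pos := Real.sqrt_pos.2 (by exact_mod_cast Fintype.card_pos)
  r_sq := Real.sq_sqrt (Nat.cast_nonneg _)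
  G0 := G_zero
  Z0 := Z_zero
  B0 := fun _ => B_zero _
  Znn := fun _ => Nat.cast_nonneg _
  recG := hχ.G_rec
  recZ := hχ.rec_Z
  recB := hχ.rec_B
  α1 := by rw [hχ.H_one, hχ.one]
  αle := fun m => by
    refine abs_le_of_sq_le_sq ?_ (by positivity)
    rw [← pow_mul, mul_comm, pow_mul, Real.sq_sqrt (Nat.cast_nonneg _)]
    exact hχ.alpha_sq m
  kl := hχ.kloosterman

omit [CharP F 2] in
lemma Z_eq_zero_iff {k : ℕ} :
    Z F k = 0 ↔ ∀ E : AddSubgroup F, (els E).card = 2 ^ k → S 0 E ≠ 0 := by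
  classical
  simp [Z, Finset.filter_eq_empty_iff, mem_Gr]

lemma Z_symm {n k : ℕ} (hn : Fintype.card F = 2 ^ n) (h2 : 2 ≤ n) (hk : k ≤ n)
    (h : Z F (n - k) = 0) : Z F k = 0 := by
  rw [Z_eq_zero_iff] at h ⊢
  intro E hE hS
  obtain ⟨W, hW, hS'⟩ := exists_dual hn h2 hk E hE hS
  exact h W hW hS'

lemma IsChi.Z_ne_zero_small (hχ : IsChi χ) {n k : ℕ} (hn : Fintype.card F = 2 ^ n)
    (hk : 3 ≤ k) (hkn : 2 * k + 1 ≤ n) : Z F k ≠ 0 := by
  refine (hχ.recData.main hk ?_).ne'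
  rw [hn, ← pow_mul, ← pow_succ']
  push_cast
  exact pow_le_pow_right₀ (by norm_num) (by omega)

theorem IsChi.Z_eq_zero (hχ : IsChi χ) {n k : ℕ} (hn : Fintype.card F = 2 ^ n) (h3 : 3 ≤ n)
    (hodd : Odd n) (hk : 1 ≤ k) (hkn : k ≤ n - 1) :
    Z F k = 0 ↔ (k = 1 ∨ k = 2 ∨ k = n - 2 ∨ k = n - 1) := by
  have h1 := hχ.recData.Z1
  have h2 := hχ.recData.Z2
  constructor
  · intro h
    by_contra hcon
    push Not at hcon
    obtain ⟨l, hl⟩ := hodd
    by_cases hs : 2 * k + 1 ≤ n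
    · exact hχ.Z_ne_zero_small hn (by omega) hs h
    · refine hχ.Z_ne_zero_small (k := n - k) hn (by omega) (by omega) ?_
      refine Z_symm hn (by omega) (by omega) ?_
      rwa [show n - (n - k) = k by omega]
  · rintro (rfl | rfl | rfl | rfl)
    · exact h1
    · exact h2
    · refine Z_symm hn (by omega) (by omega) ?_
      rwa [show n - (n - 2) = 2 by omega]
    · refine Z_symm hn (by omega) (by omega) ?_
      rwa [show n - (n - 1) = 1 by omega]

omit [CharP F 2] in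
lemma exists_isChi [Algebra (ZMod 2) F] (hodd : Odd (Module.finrank (ZMod 2) F)) :
    ∃ χ : F → ℝ, IsChi χ := by
  refine ⟨fun x => if Algebra.trace (ZMod 2) F x = 0 then 1 else -1, ?_, ?_, ?_, ?_⟩
  · intro x y
    rw [map_add]
    generalize Algebra.trace (ZMod 2) F x = a
    generalize Algebra.trace (ZMod 2) F y = b
    have h11 : (1 : ZMod 2) + 1 = 0 := by decide
    have hab : ∀ c : ZMod 2, c = 0 ∨ c = 1 := by decide
    rcases hab a with rfl | rfl <;> rcases hab b with rfl | rfl <;> simp [h11]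
  · intro x
    split_ifs <;> simp
  · intro x
    have := Algebra.trace_eq_of_algEquiv (FiniteField.frobeniusAlgEquivOfAlgebraic (ZMod 2) F) x
    rw [FiniteField.coe_frobeniusAlgEquivOfAlgebraic, ZMod.card] at this
    simp only [this]
  · have : Algebra.trace (ZMod 2) F 1 = 1 := by
      rw [← map_one (algebraMap (ZMod 2) F), Algebra.trace_algebraMap, nsmul_eq_mul, mul_one]
      exact (ZMod.natCast_eq_one_iff_odd).2 hodd
    simp [this]

omit [CharP F 2] in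
lemma card_els [Algebra (ZMod 2) F] (V : Submodule (ZMod 2) F) :
    (els V.toAddSubgroup).card = 2 ^ Module.finrank (ZMod 2) V := by
  classical
  have := Module.card_eq_pow_finrank (K := ZMod 2) (V := V)
  rw [ZMod.card] at this
  rw [← this, Fintype.card_subtype]
  congr 1

omit [CharP F 2] in
lemma finsum_eq_S [Algebra (ZMod 2) F] (V : Submodule (ZMod 2) F) (a : F) :
    ∑ᶠ x ∈ (V : Set F), (a + x)⁻¹ = S a V.toAddSubgroup := by
  have : (V : Set F) = (els V.toAddSubgroup : Set F) := by ext x; simp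
  rw [this, finsum_mem_coe_finset]
  rfl

theorem sumFree_iff [Algebra (ZMod 2) F] {k : ℕ} :
    (∀ V : Submodule (ZMod 2) F, Module.finrank (ZMod 2) V = k →
      ∀ a : F, ∑ᶠ x ∈ (V : Set F), (a + x)⁻¹ ≠ 0) ↔ Z F k = 0 := by
  rw [Z_eq_zero_iff]
  constructor
  · intro h E hE
    have hV : (AddSubgroup.toZModSubmodule 2 E).toAddSubgroup = E := rfl
    have h1 := card_els (AddSubgroup.toZModSubmodule 2 E)
    rw [hV, hE] at h1
    have := h _ (Nat.pow_right_injective le_rfl h1.symm) 0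
    rwa [finsum_eq_S, hV] at this
  · intro h V hV a
    rw [finsum_eq_S]
    have hc := card_els V
    rw [hV] at hc
    by_cases ha : a ∈ V.toAddSubgroup
    · rw [S_of_mem ha]; exact h _ hc
    · exact S_ne_zero k _ a hc ha

end Pool.Agent.MP_f6d20c_nt

end
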